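import Pool.Agent.Helper27.BI.S5.Geo5
import Pool.Agent.Helper73.BI5.M_PF
import Pool.Agent.Helper27.BI.GBasic

/-!
# Project BI, stage 5: module IO2
-/

set_option autoImplicit false
set_option linter.unusedSectionVars false

open scoped Manifold ContDiff Topology ComplexConjugate
open Set Filter Pool.Agent.Helper65.Barb Pool.Agent.Helper18.BI
open Pool.Agent.Helper70.BI (I4 LD NearEq IsW)
open Pool.Agent.Helper34.BI (rade qe)
open Pool.Agent.Helper27.BI (e1 imp_image imp_off imp_congr imp_comp)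
open Pool.Agent.Helper27.H

namespace Pool.Agent.Helper27.S5

namespace IO2

/-- the constant family -/
noncomputable def cfam {T T' : R4 → R4} (h1 : ContDiff ℝ ∞ T) (h2 : ContDiff ℝ ∞ T')
    (h3 : ∀ p, T (T' p) = p) (h4 : ∀ p, T' (T p) = p) : DFam 𝓘(ℝ, R4) R4 where
  f := fun z => T z.2
  g := fun z => T' z.2
  smooth_f := (contMDiff_iff_contDiff.2 h1).comp contMDiff_snd
  smooth_g := (contMDiff_iff_contDiff.2 h2).comp contMDiff_snd
  fg := fun _ x => h3 x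
  gf := fun _ x => h4 x

theorem inv_off {K : Set R4} {T T' : R4 → R4} (h : SDiff K T T') : ∀ p, p ∉ K → T' p = p := by
  intro p hp
  have h1 := h.2.2.2.2 p hp
  have h2 := h.2.2.2.1 p
  rwa [h1] at h2

theorem mapsTo' {K : Set R4} {T T' : R4 → R4} (h : SDiff K T T') : MapsTo T K K := by
  intro p hp
  by_contra h1
  have h2 := h.2.2.2.2 _ h1
  have h3 := congrArg T' h2
  rw [h.2.2.2.1, h.2.2.2.1] at h3
  rw [h3] at h1
  exact h1 hp

theorem contDiff_imp {ι : R4 → R4} {K : Set R4} {T T' : R4 → R4} (hι : EmbOn I4 ι K)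
    (hK : IsCompact K) (h : SDiff K T T') : ContDiff ℝ ∞ (imp ι K T) := by
  obtain ⟨A', hA, -, -⟩ := m_PF ι K (cfam h.1 h.2.1 h.2.2.1 h.2.2.2.1) hι hK
    (fun t x hx => h.2.2.2.2 x hx)
  have e : imp ι K T = fun y => A'.f (0, y) := by
    funext y
    exact (hA 0 y).symm
  rw [e]
  have h1 : ContMDiff 𝓘(ℝ, R4) 𝓘(ℝ, R4) ∞ (fun y : R4 => A'.f ((0 : ℝ), y)) :=
    A'.smooth_f.comp (contMDiff_const.prodMk contMDiff_id)
  exact contMDiff_iff_contDiff.1 h1

theorem sdiff_imp {ι : R4 → R4} {K : Set R4} {T T' : R4 → R4} (hι : EmbOn I4 ι K)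
    (hK : IsCompact K) (h : SDiff K T T') : SDiff (ι '' K) (imp ι K T) (imp ι K T') := by
  have h' : SDiff K T' T := ⟨h.2.1, h.1, h.2.2.2.1, h.2.2.1, inv_off h⟩
  refine ⟨contDiff_imp hι hK h, contDiff_imp hι hK h', fun p => ?_, fun p => ?_, fun p hp => imp_off hp⟩
  · rw [← imp_comp hι.2 (mapsTo' h')]
    by_cases hp : p ∈ ι '' K
    · obtain ⟨q, hq, rfl⟩ := hp
      rw [imp_image hι.2 hq, h.2.2.1]
    · exact imp_off hp
  · rw [← imp_comp hι.2 (mapsTo' h)]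
    by_cases hp : p ∈ ι '' K
    · obtain ⟨q, hq, rfl⟩ := hp
      rw [imp_image hι.2 hq, h.2.2.2.1]
    · exact imp_off hp

section main
variable {G T T' : R4 → R4} {δ δ' κ β c : ℝ} {D D' : ArcD} {H : DFam 𝓘(ℝ, R4) R4} {a b : ℝ}
  (hS : Sys G T T' δ δ' κ β c D D' H a b)
include hS

theorem inj : InjOn G (Reg δ') := hS.emb.2.mono Geo.Reg_K3

/-- the key: the value of `io` and of the composition -/
theorem key {p : R4} (hp : p ∈ Reg δ') (h1 : p ∉ wallS δ') (h2 : p ∉ wall2 δ' κ β)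
    (h3 : G p ∉ A2 G H β a b) : hio H δ' κ β p ∈ Reg δ' ∧
    EE G H δ' κ β (G p) = G (rade δ' 1 (H.g (1, hio H δ' κ β p))) := by
  have hP := hS.par
  have d' := Geo.hδ' hP
  have k0 := hP.k0
  have hr : 1 / 25 - δ' < rsq 1 p := by
    by_contra h
    exact h1 ⟨hp.1, hp.2.1, hp.2.2.1, not_lt.1 h⟩
  by_cases hh : p ∈ hol δ' κ β
  · -- inside the hole
    have e1 : hio H δ' κ β p = H.f (1, p) := by
      unfold hio
      rw [if_pos (by linarith [hh.2.2, d'.1])]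
    have hn := Geo.hol_near hP hh
    have hq := Geo.H_near_rsq hS.th hP hS.mc hn
    have hl := Geo.H_reg_f hS.th (t := 1) hp.1 hp.2.1 hp.2.2.2
    rw [e1, H.gf, Geo.rade_fix d' hr.le]
    refine ⟨⟨hl.1, hl.2.1, by linarith [hq.1, d'.1], hl.2.2⟩, ?_⟩
    unfold EE
    apply imp_off
    rintro ⟨q, hq1, hq2⟩
    have := inj hS hq1.1 hp hq2
    rw [this] at hq1
    exact hq1.2 hh
  · have hg : 1 / 25 - δ' < rsq 1 (sgi κ β p) := by
      have a1 : 1 / 25 - 3 * δ' ≤ rsq 1 (sgi κ β p) := by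
        by_contra h
        exact hh ⟨hp.1, hp.2.1, not_le.1 h⟩
      by_contra h
      exact h2 ⟨hp.1, hp.2.1, a1, not_lt.1 h⟩
    have e1 : hio H δ' κ β p = H.f (1, rad2 δ' κ β (H.g (1, p))) := by
      unfold hio
      rw [if_neg (by linarith [d'.1])]
    have e2 : EE G H δ' κ β (G p) = G (rade δ' 1 (rad2 δ' κ β (H.g (1, p)))) := by
      unfold EE
      rw [imp_image ((inj hS).mono sdiff_subset) ⟨hp, hh⟩]
    rw [e1, e2, H.gf]
    refine ⟨?_, rfl⟩
    rcases le_or_gt (1 / 25 - δ') (rsq 1 (sgi κ β (H.g (1, p)))) with h4 | h4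
    · rw [Geo.rad2_fix d' k0 β h4, H.fg]
      exact hp
    · have h5 : 0 < rsq 1 (sgi κ β (H.g (1, p))) := by
        rw [Geo.sgi_pos_iff k0]
        intro h6
        have h7 : p = ((H.g (1, p)).1, z2 c β (H.g (1, p)).1) := by
          rw [← Geo.H_P2 hS.th hP, ← h6]
          exact (H.fg 1 p).symm
        by_cases hs : (H.g (1, p)).1 ∈ Icc a b
        · apply h3
          refine ⟨((H.g (1, p)).1, P2 β), ⟨rfl, hs.1, hs.2⟩, ?_⟩
          show G (H.f (1, ((H.g (1, p)).1, P2 β))) = G p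
          rw [Geo.H_P2 hS.th hP, ← h7]
        · have h8 := Geo.H_P2_out hS.th hP hS.mc d' hS.ab hs
          rw [← h7] at h8
          linarith
      have h6 := Geo.rad2_le d' k0 β h5 h4.le
      have hn := Geo.near_of hP (by linarith [d'.1] : rsq 1 (sgi κ β (rad2 δ' κ β (H.g (1, p)))) ≤ 1 / 25)
      have hq := Geo.H_near_rsq hS.th hP hS.mc hn
      have hl := Geo.H_reg_g hS.th (t := 1) hp.1 hp.2.1 hp.2.2.2
      have e3 : (H.f (1, rad2 δ' κ β (H.g (1, p)))).1 = (H.g (1, p)).1 := by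
        rw [Geo.H_near hS.th hP hn]
        rfl
      refine ⟨?_, ?_, by linarith [hq.1, d'.1], hq.2⟩
      · rw [e3]; exact hl.1
      · rw [e3]; exact hl.2.1

/-- the second map factors through `io` -/
theorem fac {x : R4} (hx : x ∈ U2 G δ' κ β \ A2 G H β a b) :
    EE G H δ' κ β x = hatE G δ' (fun p => H.g (1, p)) (io G H δ' κ β x) := by
  by_cases hG : x ∈ G '' Reg δ'
  · obtain ⟨p, hp, rfl⟩ := hG
    have h1 : p ∉ wallS δ' := fun h => hx.1 ⟨p, Or.inl h, rfl⟩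
    have h2 : p ∉ wall2 δ' κ β := fun h => hx.1 ⟨p, Or.inr h, rfl⟩
    obtain ⟨h3, h4⟩ := key hS hp h1 h2 hx.2
    rw [h4]
    unfold io hatE
    rw [imp_image (inj hS) hp, imp_image (inj hS) h3]
  · have e1 : EE G H δ' κ β x = x := by
      unfold EE
      apply imp_off
      rintro ⟨q, hq, rfl⟩
      exact hG ⟨q, hq.1, rfl⟩
    have e2 : io G H δ' κ β x = x := by
      unfold io
      exact imp_off hG
    rw [e1, e2]
    unfold hatE
    rw [imp_off hG]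

/-- points of the base arc are in the region -/
theorem arc_pt {y : R4} (hy : y ∈ D'.A) : ∃ s ∈ Icc D'.s₀ D'.s₁, y = G (s, z0 s) ∧
    ((s, z0 s) : R4) ∈ Reg δ' := by
  obtain ⟨p, ⟨h1, h2, h3⟩, rfl⟩ := hy
  refine ⟨p.1, ⟨h1, h2⟩, ?_, ?_⟩
  · rw [hS.hat'.J]
    show G (p.1, z0 p.1 + p.2) = _
    rw [h3, add_zero]
  · have b1 : 1 / 25 - δ' ≤ bfin p.1 ^ 2 := by
      rcases eq_or_lt_of_le h1 with h | h
      · rw [← h, hS.hat'.b₀]
      · rcases eq_or_lt_of_le h2 with h' | h'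
        · rw [h', hS.hat'.b₁]
        · exact (hS.hat'.b p.1 ⟨h, h'⟩).le
    have b2 := bfin_le p.1
    have b3 := bfin_nonneg p.1
    have r := rsq1_z0 p.1
    have d' := (Geo.hδ' hS.par).1
    refine ⟨by linarith [hS.hat'.s₀.1], by linarith [hS.hat'.s₁.2], ?_, ?_⟩
    · rw [r]; linarith
    · rw [r]; nlinarith

theorem arc_U2 {y : R4} (hy : y ∈ D'.A) (hU : y ∈ D'.U) : y ∈ U2 G δ' κ β \ A2 G H β a b := by
  have hP := hS.par
  have d' := Geo.hδ' hP
  have k0 := hP.k0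
  have k1 := hP.k1
  obtain ⟨s, hs, e, hr⟩ := arc_pt hS hy
  rw [hS.hat'.U] at hU
  constructor
  · rintro ⟨p, hp | hp, hpe⟩
    · exact hU ⟨p, hp, hpe⟩
    · have h1 := inj hS (Geo.wall2_Reg hP hp) hr (hpe.trans e)
      have h2 := Geo.wall2_near hP hp
      rw [h1] at h2
      have e2 : nsq (z0 s - P2 β) = bfin s ^ 2 + β ^ 2 := by
        rw [Geo.z0_def, Geo.nsq_def]
        unfold P2
        simp
      have h3 : nsq (z0 s - P2 β) ≤ κ ^ 2 := h2
      rw [e2] at h3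
      nlinarith [sq_nonneg (bfin s)]
  · rintro ⟨p, ⟨hp1, hp2, hp3⟩, hpe⟩
    have hpp : p = (p.1, P2 β) := Prod.ext rfl hp1
    have h0 : G (H.f (1, p)) = y := hpe
    rw [hpp, Geo.H_P2 hS.th hP] at h0
    have hn : nsq (((p.1, P2 β) : R4).2 - P2 β) ≤ κ ^ 2 := by
      show nsq (P2 β - P2 β) ≤ κ ^ 2
      rw [sub_self]
      simp [Geo.nsq_def]
      positivity
    have hq := Geo.H_near_rsq hS.th hP hS.mc hn
    rw [Geo.H_P2 hS.th hP] at hq
    have hreg : ((p.1, z2 c β p.1) : R4) ∈ Reg δ' :=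
      ⟨by show (0 : ℝ) ≤ p.1; linarith [hS.ab.ma.1], by show p.1 ≤ (1 : ℝ); linarith [hS.ab.mb.2],
        by linarith [hq.1, d'.1], hq.2⟩
    have h1 := inj hS hreg hr (h0.trans e)
    have h2 : p.1 = s := congrArg Prod.fst h1
    have h3 : z2 c β p.1 = z0 s := congrArg Prod.snd h1
    rw [h2, Geo.z2_def, Geo.z0_def] at h3
    have h4 := congrArg (fun x : R3 => x.2.re) h3
    simp only [Complex.ofReal_re, Complex.zero_re] at h4
    have h5 := Geo.lam_pos hS.mc s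
    have h6 : 0 < β := k0.trans k1
    have h7 := mul_pos h5 h6
    linarith

end main

end IO2

theorem m_IO2 (h1 : StIO1) (hHE : StHE) : StIO2 := by
  intro G T T' δ δ' κ β c D D' H a b hS K Θ Θ' hK hKs hΘ
  obtain ⟨e1, m1, f1⟩ := h1 G T T' δ δ' κ β c D D' H a b hS
  have hP := hS.par
  have d' := Geo.hδ' hP
  obtain ⟨e2, c2⟩ := hHE G T T' δ' c D' H hS.fb d' hS.emb hS.hat' hS.th
  have hK1 : K ⊆ U2 G δ' κ β \ A2 G H β a b := fun x hx =>
    ⟨(hKs hx).1, fun h => (hKs hx).2 (Or.inr h)⟩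
  have hιK : EmbOn I4 (io G H δ' κ β) K := ⟨fun p hp => e1.1 p (hK1 hp), e1.2.mono hK1⟩
  have hK' : io G H δ' κ β '' K ⊆ D'.U \ D'.A := by
    rintro _ ⟨x, hx, rfl⟩
    refine ⟨m1 (hK1 hx), fun hA => ?_⟩
    have hU := m1 (hK1 hx)
    have h3 := IO2.arc_U2 hS hA hU
    have h4 := (f1 _ hA h3.1).self_of_nhds
    have h5 := e1.2 h3 (hK1 hx) h4
    rw [h5] at hA
    exact (hKs hx).2 (Or.inl hA)
  refine ⟨hK', ?_⟩
  have hcont : ContinuousOn (io G H δ' κ β) K := fun x hx =>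
    (hιK.1 x hx).contMDiffAt.continuousAt.continuousWithinAt
  have hKc : IsCompact (io G H δ' κ β '' K) := hK.image_of_continuousOn hcont
  have hSD := IO2.sdiff_imp hιK hK hΘ
  have h6 := c2 _ _ _ hKc hK' hSD
  have hmap := IO2.mapsTo' hΘ
  have hinj : InjOn (fun p => hatE G δ' (fun p => H.g (1, p)) (io G H δ' κ β p)) K := by
    intro x hx y hy hxy
    exact hιK.2 hx hy (e2.2 (hK' ⟨x, hx, rfl⟩) (hK' ⟨y, hy, rfl⟩) hxy)
  have h7 : imp (EE G H δ' κ β) K Θ =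
      imp (fun p => hatE G δ' (fun p => H.g (1, p)) (io G H δ' κ β p)) K Θ :=
    (imp_congr hinj (fun x hx => (IO2.fac hS (hK1 hx)).symm) hmap).symm
  have h8 : imp (fun p => hatE G δ' (fun p => H.g (1, p)) (io G H δ' κ β p)) K Θ =
      imp (hatE G δ' (fun p => H.g (1, p))) (io G H δ' κ β '' K) (imp (io G H δ' κ β) K Θ) :=
    (hImp R4 R4 I4 R4 (hatE G δ' (fun p => H.g (1, p))) (io G H δ' κ β '' K) Θ
      (e2.2.mono hK')).2.2.2.2.2.2.2 (io G H δ' κ β) K hιK.2 rfl hmap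
  rw [h7, h8]
  exact (hCI R4 R4 I4 R4).2.1 _ _ h6

end Pool.Agent.Helper27.S5

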